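import Pool.Agent.Y661.GL.Asm

/-!
# Functionals which vanish on the centre give almost spectral isometries that move Glimm ideals
-/

set_option autoImplicit false

universe u

noncomputable section

namespace Pool.Agent.Y661.GL.Crit

open Pool.Agent.Helper757.GL Pool.Agent.Y661.GL.Asm

variable {A : Type u} [CStarAlgebra A]

theorem one_notMem (m : Ideal (Subalgebra.center ℂ A)) (hm : m ≠ ⊤) :
    (1 : A) ∉ closedIdeal (carrier m) := by
  intro h
  obtain ⟨v, hv1, -, hv3⟩ := small_of_mem_closedIdeal m h 1 one_pos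
  rw [mul_one] at hv3
  letI := zRing A
  have : CompleteSpace (Subalgebra.center ℂ A) := (center_closed (A := A)).completeSpace_coe
  apply hm
  have h1 : (1 : Subalgebra.center ℂ A) - v ∈ m := by
    have h2 := m.neg_mem hv1
    rwa [neg_sub] at h2
  exact Ideal.eq_top_of_isUnit_mem _ h1 (isUnit_one_sub_of_norm_lt_one hv3)

theorem radius_add (x : A) (c : ℂ) :
    spectralRadius ℂ (x + c • (1 : A)) ≤ spectralRadius ℂ x + (‖c‖₊ : ENNReal) := by
  conv_lhs => unfold spectralRadius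
  refine iSup₂_le fun μ hμ => ?_
  have h1 : μ - c ∈ spectrum ℂ x := by
    rw [← Algebra.algebraMap_eq_smul_one, add_comm] at hμ
    apply (spectrum.add_mem_add_iff (r := μ - c) (s := c) (a := x)).1
    rw [sub_add_cancel]
    exact hμ
  have h2 : (‖μ - c‖₊ : ENNReal) ≤ spectralRadius ℂ x := by
    unfold spectralRadius
    exact le_iSup₂_of_le _ h1 le_rfl
  calc (‖μ‖₊ : ENNReal) ≤ (‖μ - c‖₊ + ‖c‖₊ : NNReal) := by
        rw [ENNReal.coe_le_coe]
        have := nnnorm_add_le (μ - c) c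
        rwa [sub_add_cancel] at this
    _ = (‖μ - c‖₊ : ENNReal) + (‖c‖₊ : ENNReal) := ENNReal.coe_add _ _
    _ ≤ _ := by gcongr

/-- two different maximal ideals of the centre, separated by a central element -/
theorem two_ideals [Nontrivial A] {z : A} (hz : z ∈ Subalgebra.center ℂ A)
    (hns : ∀ c : ℂ, z ≠ c • (1 : A)) :
    ∃ m₁ m₂ : Ideal (Subalgebra.center ℂ A), m₁.IsMaximal ∧ m₂.IsMaximal ∧
      ∃ z₁ ∈ m₁, ∃ z₂ ∈ m₂, z₁ + z₂ = 1 := by
  obtain ⟨a, ha⟩ := spectrum.nonempty z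
  obtain ⟨b, hb, hab⟩ : ∃ b ∈ spectrum ℂ z, b ≠ a := by
    by_contra hcon
    push Not at hcon
    apply hns a
    rw [← sub_eq_zero]
    have hc : z - a • (1 : A) ∈ Subalgebra.center ℂ A := by
      rw [← Algebra.algebraMap_eq_smul_one]
      exact Subalgebra.sub_mem _ hz (Subalgebra.algebraMap_mem _ a)
    have hn : IsStarNormal (z - a • (1 : A)) := ⟨Subalgebra.mem_center_iff.1 hc _⟩
    have h1 := IsStarNormal.spectralRadius_eq_nnnorm (z - a • (1 : A))
    have h2 : spectralRadius ℂ (z - a • (1 : A)) ≤ 0 := by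
      unfold spectralRadius
      refine iSup₂_le fun μ hμ => ?_
      have h3 : μ + a ∈ spectrum ℂ z := by
        have h4 := (spectrum.add_mem_add_iff (r := μ) (s := a) (a := z - a • (1 : A))).2 hμ
        rw [Algebra.algebraMap_eq_smul_one, add_sub_cancel] at h4
        exact h4
      have h5 := hcon _ h3
      have h6 : μ = 0 := by linear_combination h5
      rw [h6]
      simp
    rw [h1] at h2
    simpa using h2
  have key : ∀ c ∈ spectrum ℂ z, ∃ m : Ideal (Subalgebra.center ℂ A), m.IsMaximal ∧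
      (⟨z, hz⟩ : Subalgebra.center ℂ A) - algebraMap ℂ _ c ∈ m := by
    intro c hc
    have hnu : (⟨z, hz⟩ : Subalgebra.center ℂ A) - algebraMap ℂ _ c ∈
        nonunits (Subalgebra.center ℂ A) := by
      intro hu
      rw [spectrum.mem_iff] at hc
      apply hc
      have h1 := (hu.map (Subalgebra.center ℂ A).val).neg
      have h2 : -((Subalgebra.center ℂ A).val ((⟨z, hz⟩ : Subalgebra.center ℂ A) -
          algebraMap ℂ _ c)) = algebraMap ℂ A c - z := by
        rw [map_sub, AlgHom.commutes]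
        show -(z - algebraMap ℂ A c) = _
        rw [neg_sub]
      rwa [h2] at h1
    exact exists_max_ideal_of_mem_nonunits hnu
  obtain ⟨m₁, hm₁, h1⟩ := key a ha
  obtain ⟨m₂, hm₂, h2⟩ := key b hb
  have hba : b - a ≠ 0 := sub_ne_zero.2 hab
  refine ⟨m₁, m₂, hm₁, hm₂, (b - a)⁻¹ • (⟨z, hz⟩ - algebraMap ℂ _ a), ?_,
    -((b - a)⁻¹ • (⟨z, hz⟩ - algebraMap ℂ _ b)), ?_, ?_⟩
  · exact m₁.smul_of_tower_mem _ h1
  · exact m₂.neg_mem (m₂.smul_of_tower_mem _ h2)
  · rw [← smul_neg, ← smul_add, neg_sub, sub_add_sub_cancel', ← map_sub,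
      Algebra.algebraMap_eq_smul_one, smul_smul, inv_mul_cancel₀ hba, one_smul]

/-- `x ↦ x + φ(x) 1` -/
def shift (φ : A →ₗ[ℂ] ℂ) (h1 : φ 1 = 0) : A ≃ₗ[ℂ] A where
  toFun x := x + φ x • (1 : A)
  invFun x := x - φ x • (1 : A)
  map_add' x y := by
    rw [map_add, add_smul]
    abel
  map_smul' c x := by
    rw [map_smul, RingHom.id_apply, smul_add, smul_smul, smul_eq_mul]
  left_inv x := by
    show x + φ x • (1 : A) - φ (x + φ x • (1 : A)) • (1 : A) = x
    rw [map_add, map_smul, h1, smul_zero, add_zero, add_sub_cancel_right]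
  right_inv x := by
    show x - φ x • (1 : A) + φ (x - φ x • (1 : A)) • (1 : A) = x
    rw [map_sub, map_smul, h1, smul_zero, sub_zero, sub_add_cancel]

theorem shift_apply (φ : A →ₗ[ℂ] ℂ) (h1 : φ 1 = 0) (x : A) :
    shift φ h1 x = x + φ x • (1 : A) := rfl

theorem shift_symm_apply (φ : A →ₗ[ℂ] ℂ) (h1 : φ 1 = 0) (x : A) :
    (shift φ h1).symm x = x + (-φ x) • (1 : A) := by
  rw [neg_smul, ← sub_eq_add_neg]
  rfl

/-- the main construction -/
theorem crit (φ : A →ₗ[ℂ] ℂ) (K : ℝ)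
    (hφ : ∀ x, (‖φ x‖₊ : ENNReal) ≤ ENNReal.ofReal K * spectralRadius ℂ x)
    (hz : ∀ z ∈ Subalgebra.center ℂ A, φ z = 0) (h0 : φ ≠ 0)
    (hns : ∃ z ∈ Subalgebra.center ℂ A, ∀ c : ℂ, z ≠ c • (1 : A)) (ε : ℝ) (hε : 0 < ε) :
    ∃ T : A ≃ₗ[ℂ] A, T 1 = 1 ∧ (∀ z ∈ Subalgebra.center ℂ A, T z = z) ∧
      (∀ x, spectralRadius ℂ (T x) ≤ ENNReal.ofReal (1 + ε) * spectralRadius ℂ x) ∧
      (∀ x, spectralRadius ℂ x ≤ ENNReal.ofReal (1 + ε) * spectralRadius ℂ (T x)) ∧
      ∃ m : Ideal (Subalgebra.center ℂ A), m.IsMaximal ∧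
        ∃ x ∈ closedIdeal (carrier m), T x ∉ closedIdeal (T '' carrier m) := by
  obtain ⟨y, hy⟩ : ∃ y, φ y ≠ 0 := by
    by_contra hcon
    push Not at hcon
    exact h0 (LinearMap.ext hcon)
  have hA : Nontrivial A := ⟨⟨y, 0, fun h => hy (by rw [h, map_zero])⟩⟩
  have hφ1 : φ 1 = 0 := hz 1 (Subalgebra.one_mem _)
  set δ : ℝ := ε / (|K| + 1) with hδ
  have hδ0 : 0 < δ := by positivity
  have hψ1 : ((δ : ℂ) • φ) 1 = 0 := by
    rw [LinearMap.smul_apply, hφ1, smul_zero]
  set ψ : A →ₗ[ℂ] ℂ := (δ : ℂ) • φ with hψ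
  have hψz : ∀ z ∈ Subalgebra.center ℂ A, ψ z = 0 := fun z h => by
    rw [hψ, LinearMap.smul_apply, hz z h, smul_zero]
  have hb : ∀ x, (‖ψ x‖₊ : ENNReal) ≤ ENNReal.ofReal ε * spectralRadius ℂ x := by
    intro x
    have e1 : (‖ψ x‖₊ : ENNReal) = ENNReal.ofReal δ * (‖φ x‖₊ : ENNReal) := by
      rw [hψ, LinearMap.smul_apply, nnnorm_smul, ENNReal.coe_mul]
      congr 1
      rw [Complex.nnnorm_real, ← enorm_eq_nnnorm, Real.enorm_of_nonneg hδ0.le]
    rw [e1]
    calc ENNReal.ofReal δ * (‖φ x‖₊ : ENNReal)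
        ≤ ENNReal.ofReal δ * (ENNReal.ofReal K * spectralRadius ℂ x) := by gcongr; exact hφ x
      _ = ENNReal.ofReal (δ * K) * spectralRadius ℂ x := by
          rw [← mul_assoc, ← ENNReal.ofReal_mul hδ0.le]
      _ ≤ ENNReal.ofReal ε * spectralRadius ℂ x := by
          gcongr
          calc δ * K ≤ δ * (|K| + 1) := by
                apply mul_le_mul_of_nonneg_left _ hδ0.le
                linarith [le_abs_self K]
            _ = ε := by
                rw [hδ]
                field_simp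
  have hofReal : ENNReal.ofReal (1 + ε) = 1 + ENNReal.ofReal ε := by
    rw [ENNReal.ofReal_add zero_le_one hε.le, ENNReal.ofReal_one]
  refine ⟨shift ψ hψ1, ?_, fun z h => ?_, fun x => ?_, fun x => ?_, ?_⟩
  · rw [shift_apply, hψ1, zero_smul, add_zero]
  · rw [shift_apply, hψz z h, zero_smul, add_zero]
  · rw [shift_apply]
    refine (radius_add x (ψ x)).trans ?_
    rw [hofReal, add_mul, one_mul]
    gcongr
    exact hb x
  · have e1 : x = shift ψ hψ1 x + (-ψ (shift ψ hψ1 x)) • (1 : A) := by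
      rw [← shift_symm_apply ψ hψ1, LinearEquiv.symm_apply_apply]
    conv_lhs => rw [e1]
    refine (radius_add _ _).trans ?_
    rw [hofReal, add_mul, one_mul, nnnorm_neg]
    gcongr
    exact hb _
  · obtain ⟨z, hzc, hzn⟩ := hns
    obtain ⟨m₁, m₂, hm₁, hm₂, z₁, hz₁, z₂, hz₂, hsum⟩ := two_ideals hzc hzn
    have hsumA : (z₁ : A) + (z₂ : A) = 1 := congrArg (Subtype.val) hsum
    have hψy : ψ y ≠ 0 := by
      rw [hψ, LinearMap.smul_apply, smul_eq_mul]
      exact mul_ne_zero (Complex.ofReal_ne_zero.2 hδ0.ne') hy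
    have hfin : ∀ m : Ideal (Subalgebra.center ℂ A), m.IsMaximal → ∀ w ∈ m,
        ψ ((w : A) * y) ≠ 0 → ∃ m : Ideal (Subalgebra.center ℂ A), m.IsMaximal ∧
          ∃ x ∈ closedIdeal (carrier m),
            shift ψ hψ1 x ∉ closedIdeal (shift ψ hψ1 '' carrier m) := by
      intro m hm w hw hne
      refine ⟨m, hm, (w : A) * y, mul_mem_closedIdeal (S := carrier m) (s := (w : A)) ⟨w, hw, rfl⟩ y, fun hcon => ?_⟩
      have himg : shift ψ hψ1 '' carrier m = carrier m := by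
        ext t
        constructor
        · rintro ⟨_, ⟨s, hs, rfl⟩, rfl⟩
          rw [shift_apply, hψz _ s.2, zero_smul, add_zero]
          exact ⟨s, hs, rfl⟩
        · rintro ⟨s, hs, rfl⟩
          exact ⟨s, ⟨s, hs, rfl⟩, by rw [shift_apply, hψz _ s.2, zero_smul, add_zero]⟩
      rw [himg, shift_apply] at hcon
      have h2 : ψ ((w : A) * y) • (1 : A) ∈ closedSub (carrier m) := by
        have h3 := (closedSub (carrier m)).sub_mem hcon
          (show (w : A) * y ∈ closedSub (carrier m) from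
            mul_mem_closedIdeal (S := carrier m) (s := (w : A)) ⟨w, hw, rfl⟩ y)
        rwa [add_sub_cancel_left] at h3
      have h3 := (closedSub (carrier m)).smul_mem (ψ ((w : A) * y))⁻¹ h2
      rw [smul_smul, inv_mul_cancel₀ hne, one_smul] at h3
      exact one_notMem m hm.ne_top h3
    by_cases h : ψ ((z₁ : A) * y) = 0
    · refine hfin m₂ hm₂ z₂ hz₂ fun h' => hψy ?_
      have h4 : y = (z₁ : A) * y + (z₂ : A) * y := by rw [← add_mul, hsumA, one_mul]
      rw [h4, map_add, h, h', add_zero]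
    · exact hfin m₁ hm₁ z₁ hz₁ h

end Pool.Agent.Y661.GL.Crit
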