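import Pool.Agent.Y661.GL.Asm

/-!
# Bounded traces are bounded by the spectral radius
-/

set_option autoImplicit false

universe u

open scoped Topology
open Filter

noncomputable section

namespace Pool.Agent.Y661.GL.Rota

open Pool.Agent.Helper757.GL Pool.Agent.Y661.GL.Asm

variable {A : Type u} [CStarAlgebra A]

theorem rota [Nontrivial A] (y : A) {r : ℝ} (hr0 : 0 ≤ r) (hr1 : r < 1)
    (hy : ∀ μ ∈ spectrum ℂ y, ‖μ‖ ≤ r) : ∃ s : Aˣ, ‖(s : A) * y * ((s⁻¹ : Aˣ) : A)‖ ≤ 1 := by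
  let _ := CStarAlgebra.spectralOrder A
  let _ := CStarAlgebra.spectralOrderedRing A
  obtain ⟨ρ, hρ1, hρ2⟩ := exists_between hr1
  have hρ0 : 0 < ρ := hr0.trans_lt hρ1
  obtain ⟨k₀, hk₀⟩ := eventually_pow_lt y hr0 hρ1 hy
  have hsum : Summable fun n : ℕ => star (y ^ n) * y ^ n := by
    refine Summable.of_norm_bounded_eventually_nat (g := fun n => (ρ ^ 2) ^ n)
      (summable_geometric_of_lt_one (by positivity) (by nlinarith)) ?_
    filter_upwards [eventually_ge_atTop k₀] with n hn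
    have h1 := (hk₀ n hn).le
    rw [CStarRing.norm_star_mul_self, ← pow_mul, mul_comm 2 n, pow_mul, sq]
    exact mul_le_mul h1 h1 (norm_nonneg _) (by positivity)
  obtain ⟨h, hh⟩ : ∃ h, h = ∑' n : ℕ, star (y ^ n) * y ^ n := ⟨_, rfl⟩
  have heq : h = 1 + star y * h * y := by
    have e1 := hsum.tsum_eq_zero_add
    rw [← hh] at e1
    refine e1.trans ?_
    congr 1
    · simp
    · have e2 : ∀ n : ℕ, star (y ^ (n + 1)) * y ^ (n + 1) = star y * (star (y ^ n) * y ^ n) * y := by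
        intro n
        rw [pow_succ, star_mul]
        simp only [mul_assoc]
      simp_rw [e2]
      rw [(hsum.mul_left (star y)).tsum_mul_right, hsum.tsum_mul_left, ← hh]
  have hnn : 0 ≤ h := by
    rw [hh]
    exact tsum_nonneg fun n => star_mul_self_nonneg _
  have hge : 1 ≤ h := by
    rw [heq]
    exact le_add_of_nonneg_right (star_left_conjugate_nonneg hnn y)
  have h01 : (0 : A) ≤ 1 := by
    have h2 := star_mul_self_nonneg (1 : A)
    rwa [star_one, one_mul] at h2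
  have hu : IsUnit h := CStarAlgebra.isUnit_of_le 1 hge ⟨h01, isUnit_one⟩
  set t : A := CFC.sqrt h with ht
  have ht2 : t * t = h := CFC.sqrt_mul_sqrt_self h hnn
  have htsa : star t = t := (CFC.sqrt_nonneg h).isSelfAdjoint
  have htu : IsUnit t := ((Commute.refl t).isUnit_mul_iff.1 (by rw [ht2]; exact hu)).1
  obtain ⟨s, hs⟩ := htu
  refine ⟨s, ?_⟩
  have hsa : star ((s⁻¹ : Aˣ) : A) = ((s⁻¹ : Aˣ) : A) := by
    have h1 : ((star s)⁻¹ : Aˣ) = s⁻¹ := by
      congr 1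
      apply Units.ext
      rw [Units.coe_star, hs, htsa]
    rw [← Units.coe_star, star_inv, h1]
  set z : A := (s : A) * y * ((s⁻¹ : Aˣ) : A) with hz
  have hzz : star z * z = 1 - star ((s⁻¹ : Aˣ) : A) * ((s⁻¹ : Aˣ) : A) := by
    rw [hz, star_mul, star_mul, hsa, hs, htsa]
    have e3 : ((s⁻¹ : Aˣ) : A) * (star y * t) * (t * y * ((s⁻¹ : Aˣ) : A)) =
        ((s⁻¹ : Aˣ) : A) * (star y * h * y) * ((s⁻¹ : Aˣ) : A) := by
      rw [← ht2]
      simp only [mul_assoc]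
    rw [e3]
    have e4 : star y * h * y = h - 1 := by
      rw [eq_sub_iff_add_eq, add_comm]
      exact heq.symm
    rw [e4, mul_sub, sub_mul, mul_one]
    congr 1
    rw [← ht2, ← hs]
    calc ((s⁻¹ : Aˣ) : A) * ((s : A) * (s : A)) * ((s⁻¹ : Aˣ) : A)
        = (((s⁻¹ : Aˣ) : A) * (s : A)) * ((s : A) * ((s⁻¹ : Aˣ) : A)) := by
          simp only [mul_assoc]
      _ = 1 := by rw [Units.inv_mul, Units.mul_inv, one_mul]
  have hle : star z * z ≤ 1 := by
    rw [hzz]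
    exact sub_le_self _ (star_mul_self_nonneg _)
  have hn : ‖star z * z‖ ≤ 1 :=
    (CStarAlgebra.norm_le_one_iff_of_nonneg (star z * z) (star_mul_self_nonneg _)).2 hle
  rw [CStarRing.norm_star_mul_self] at hn
  nlinarith [norm_nonneg z]

theorem trace_le (τ : A →ₗ[ℂ] ℂ) (K : ℝ) (hK : ∀ a, ‖τ a‖ ≤ K * ‖a‖)
    (htr : ∀ a b, τ (a * b) = τ (b * a)) (x : A) :
    (‖τ x‖₊ : ENNReal) ≤ ENNReal.ofReal K * spectralRadius ℂ x := by
  rcases subsingleton_or_nontrivial A with hA | hA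
  · rw [Subsingleton.elim x 0, map_zero]
    simp
  have hK0 : 0 ≤ K := by
    have h1 := (norm_nonneg _).trans (hK 1)
    rwa [CStarRing.norm_one, mul_one] at h1
  obtain ⟨ν, hν, hmax⟩ := exists_max x
  have hrad : (‖ν‖₊ : ENNReal) ≤ spectralRadius ℂ x := by
    unfold spectralRadius
    exact le_iSup₂_of_le ν hν le_rfl
  have key : ‖τ x‖ ≤ K * ‖ν‖ := by
    have h1 : ∀ c : ℝ, ‖ν‖ < c → ‖τ x‖ ≤ K * c := by
      intro c hc
      have hc0 : 0 < c := (norm_nonneg ν).trans_lt hc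
      have hcc : ((c : ℂ))⁻¹ ≠ 0 := inv_ne_zero (Complex.ofReal_ne_zero.2 hc0.ne')
      have hy : ∀ μ ∈ spectrum ℂ (((c : ℂ))⁻¹ • x), ‖μ‖ ≤ ‖ν‖ / c := by
        intro μ hμ
        have h2 := hmax _ (Pool.Agent.Y661.GL.Cen.smul_spec hcc hμ)
        rw [inv_inv, norm_mul, Complex.norm_real, Real.norm_of_nonneg hc0.le] at h2
        rw [le_div_iff₀ hc0]
        linarith
      obtain ⟨s, hs⟩ := rota (((c : ℂ))⁻¹ • x) (div_nonneg (norm_nonneg ν) hc0.le)
        ((div_lt_one hc0).2 hc) hy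
      have h3 : τ ((s : A) * (((c : ℂ))⁻¹ • x) * ((s⁻¹ : Aˣ) : A)) = ((c : ℂ))⁻¹ * τ x := by
        rw [htr, ← mul_assoc, Units.inv_mul, one_mul, map_smul, smul_eq_mul]
      have h4 := hK ((s : A) * (((c : ℂ))⁻¹ • x) * ((s⁻¹ : Aˣ) : A))
      rw [h3, norm_mul, norm_inv, Complex.norm_real, Real.norm_of_nonneg hc0.le] at h4
      have h5 : c⁻¹ * ‖τ x‖ ≤ K := h4.trans (mul_le_of_le_one_right hK0 hs)
      rw [inv_mul_le_iff₀ hc0] at h5
      linarith
    refine le_of_forall_pos_le_add fun δ hδ => ?_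
    have h2 := h1 (‖ν‖ + δ / (K + 1)) (by linarith [show 0 < δ / (K + 1) by positivity])
    refine h2.trans ?_
    rw [mul_add]
    have h3 : K * (δ / (K + 1)) ≤ δ := by
      rw [← mul_div_assoc, div_le_iff₀ (by positivity)]
      nlinarith
    linarith
  calc (‖τ x‖₊ : ENNReal) = ENNReal.ofReal ‖τ x‖ := (ofReal_norm_eq_enorm (τ x)).symm
    _ ≤ ENNReal.ofReal (K * ‖ν‖) := ENNReal.ofReal_le_ofReal key
    _ = ENNReal.ofReal K * (‖ν‖₊ : ENNReal) := by
        rw [ENNReal.ofReal_mul hK0]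
        congr 1
        exact ofReal_norm_eq_enorm ν
    _ ≤ _ := by gcongr

end Pool.Agent.Y661.GL.Rota
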