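import Pool.Agent.Helper757.GL.Defs

/-!
# Project GL: statements of the parts
-/

set_option autoImplicit false

universe u v

namespace Pool.Agent.Y661.GL

open Pool.Agent.Helper757.GL

/-- CEN: a characterisation of the centre. -/
def S_CEN : Prop := ∀ (B : Type u) [CStarAlgebra B] (w : B) (K : ℝ),
  (∀ b : B, ∀ μ ∈ spectrum ℂ (b + w), ∃ ν ∈ spectrum ℂ b, ‖μ‖ ≤ ‖ν‖ + K) →
  w ∈ Subalgebra.center ℂ B

/-- MUL: a unital spectral isometry is multiplicative on the centre. -/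
def S_MUL : Prop := ∀ (A : Type u) (B : Type v) [CStarAlgebra A] [CStarAlgebra B]
  (T : A ≃ₗ[ℂ] B), T 1 = 1 → (∀ x, spectralRadius ℂ (T x) = spectralRadius ℂ x) →
  (∀ x, x ∈ Subalgebra.center ℂ A ↔ T x ∈ Subalgebra.center ℂ B) →
  ∀ z ∈ Subalgebra.center ℂ A, ∀ w ∈ Subalgebra.center ℂ A, T (z * w) = T z * T w

/-- INT: the Glimm ideals have intersection zero. -/
def S_INT : Prop := ∀ (B : Type u) [CStarAlgebra B] (D : B),
  (∀ m : Ideal (Subalgebra.center ℂ B), m.IsMaximal → D ∈ closedIdeal (carrier m)) → D = 0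

/-- EX: almost spectral isometries do not preserve the Glimm ideals. -/
def S_EX : Prop := ∀ ε : ℝ, 0 < ε → ∃ (A : Type) (_ : CStarAlgebra A) (T : A ≃ₗ[ℂ] A),
  T 1 = 1 ∧ (∀ z ∈ Subalgebra.center ℂ A, T z = z) ∧
  (∀ x, spectralRadius ℂ (T x) ≤ ENNReal.ofReal (1 + ε) * spectralRadius ℂ x) ∧
  (∀ x, spectralRadius ℂ x ≤ ENNReal.ofReal (1 + ε) * spectralRadius ℂ (T x)) ∧
  ∃ m : Ideal (Subalgebra.center ℂ A), m.IsMaximal ∧
    ∃ x ∈ closedIdeal (carrier m), T x ∉ closedIdeal (T '' carrier m)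

end Pool.Agent.Y661.GL
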