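import Pool.Agent.Helper757.GL.Zem
import Pool.Agent.Y661.GL.Stm

/-!
# A characterisation of the centre of a C*-algebra by the spectral radius
-/

set_option autoImplicit false

universe u

open scoped Topology
open Filter NormedSpace

noncomputable section

namespace Pool.Agent.Y661.GL.Cen

open Pool.Agent.Helper757.GL

variable {C : Type u} [CStarAlgebra C]

/-- uniform version on circles -/
theorem exists_uniform' [Nontrivial C] (F : ℂ → C) (hF : Continuous F) {M ρ : ℝ} (hM : 0 ≤ M)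
    (hρ : M < ρ) (R : ℝ)
    (h : ∀ l : ℂ, ‖l‖ = R → ∀ μ ∈ spectrum ℂ (F l), ‖μ‖ ≤ M) :
    ∃ k : ℕ, ∀ l : ℂ, ‖l‖ = R → ‖(F l) ^ 2 ^ k‖ < ρ ^ 2 ^ k := by
  have hρ0 : 0 < ρ := hM.trans_lt hρ
  let U : ℕ → Set ℂ := fun k => {l | ‖(F l) ^ 2 ^ k‖ < ρ ^ 2 ^ k}
  have hUo : ∀ k, IsOpen (U k) := fun k => isOpen_lt (by fun_prop) continuous_const
  have hUm : Monotone U := by
    apply monotone_nat_of_le_succ
    intro k l hl
    have hl' : ‖(F l) ^ 2 ^ k‖ < ρ ^ 2 ^ k := hl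
    show ‖(F l) ^ 2 ^ (k + 1)‖ < ρ ^ 2 ^ (k + 1)
    rw [pow_succ, pow_mul, pow_mul]
    refine (norm_pow_le' _ (by norm_num)).trans_lt ?_
    exact pow_lt_pow_left₀ hl' (norm_nonneg _) (by norm_num)
  have hcov : Metric.sphere (0 : ℂ) R ⊆ ⋃ k, U k := by
    intro l hl
    obtain ⟨k₀, hk₀⟩ := eventually_pow_lt (F l) hM hρ (h l (by simpa using hl))
    rw [Set.mem_iUnion]
    exact ⟨k₀, hk₀ _ (Nat.lt_two_pow_self).le⟩
  obtain ⟨k, hk⟩ := (isCompact_sphere (0 : ℂ) R).elim_directed_cover U hUo hcov hUm.directed_le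
  exact ⟨k, fun l hl => hk (by simpa using hl)⟩

/-- The maximum principle for the spectral radius. -/
theorem max_principle [Nontrivial C] (F : ℂ → C) (hF : Differentiable ℂ F) {M : ℝ} (hM : 0 ≤ M)
    {R : ℝ} (hR : 0 < R) (h : ∀ l : ℂ, ‖l‖ = R → ∀ μ ∈ spectrum ℂ (F l), ‖μ‖ ≤ M) :
    ∀ μ ∈ spectrum ℂ (F 0), ‖μ‖ ≤ M := by
  intro μ hμ
  refine le_of_forall_gt_imp_ge_of_dense fun ρ hρ => ?_
  have hρ0 : 0 < ρ := hM.trans_lt hρ
  obtain ⟨k, hk⟩ := exists_uniform' F hF.continuous hM hρ R h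
  have h1 : ‖(F 0) ^ 2 ^ k‖ ≤ ρ ^ 2 ^ k := by
    refine Complex.norm_le_of_forall_mem_frontier_norm_le (U := Metric.ball (0 : ℂ) R)
      (f := fun l => (F l) ^ 2 ^ k) Metric.isBounded_ball ?_ ?_ ?_
    · exact (hF.pow _).diffContOnCl
    · intro z hz
      rw [frontier_ball _ hR.ne'] at hz
      exact (hk z (by simpa using hz)).le
    · exact subset_closure (Metric.mem_ball_self hR)
  have h2 : μ ^ 2 ^ k ∈ spectrum ℂ ((F 0) ^ 2 ^ k) := spectrum.pow_mem_pow _ _ hμ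
  have h3 := spectrum.norm_le_norm_of_mem h2
  rw [norm_pow] at h3
  exact le_of_pow_le_pow_left₀ (by positivity) hρ0.le (h3.trans h1)

theorem smul_spec {y : C} {l : ℂ} (hl : l ≠ 0) {μ : ℂ} (h : μ ∈ spectrum ℂ (l • y)) :
    l⁻¹ * μ ∈ spectrum ℂ y := by
  have h9 := spectrum.smul_mem_smul_iff (r := Units.mk0 l hl) (s := l⁻¹ * μ) (a := y)
  refine h9.1 ?_
  show l • (l⁻¹ * μ) ∈ spectrum ℂ (l • y)
  rw [smul_eq_mul, mul_inv_cancel_left₀ hl]
  exact h

theorem exp_mul_neg (x : C) : exp x * exp (-x) = 1 := by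
  have h := exp_add_of_commute_of_mem_ball (𝕂 := ℂ) (x := x) (y := -x) (Commute.neg_right rfl)
    ((expSeries_radius_eq_top ℂ C).symm ▸ edist_lt_top _ _)
    ((expSeries_radius_eq_top ℂ C).symm ▸ edist_lt_top _ _)
  rw [add_neg_cancel, exp_zero] at h
  exact h.symm

theorem exp_neg_mul (x : C) : exp (-x) * exp x = 1 := by
  have h := exp_mul_neg (-x)
  rw [neg_neg] at h
  exact h

/-- the conjugated element -/
def cj (a w : C) (l : ℂ) : C := exp (l • -a) * w * exp (l • a)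

theorem cj_zero (a w : C) : cj a w 0 = w := by
  unfold cj
  rw [zero_smul, zero_smul, exp_zero, one_mul, mul_one]

theorem cj_hasDeriv (a w : C) (l : ℂ) :
    HasDerivAt (cj a w) (exp (l • -a) * (-a) * w * exp (l • a) +
      exp (l • -a) * w * (exp (l • a) * a)) l :=
  ((hasDerivAt_exp_smul_const (-a) l).mul_const w).mul (hasDerivAt_exp_smul_const a l)

theorem cj_deriv_zero (a w : C) : deriv (cj a w) 0 = w * a - a * w := by
  rw [(cj_hasDeriv a w 0).deriv, zero_smul, zero_smul, exp_zero]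
  simp only [one_mul, mul_one, neg_mul]
  abel

theorem cj_diff (a w : C) : Differentiable ℂ (cj a w) := fun l =>
  (cj_hasDeriv a w l).differentiableAt

theorem comm_zero (w : C) (K : ℝ)
    (h : ∀ b : C, ∀ μ ∈ spectrum ℂ (b + w), ∃ ν ∈ spectrum ℂ b, ‖μ‖ ≤ ‖ν‖ + K) (a : C) :
    w * a - a * w = 0 := by
  rcases subsingleton_or_nontrivial C with hC | hC
  · exact Subsingleton.elim _ _
  set g : ℂ → C := dslope (cj a w) 0 with hg
  have hgd : Differentiable ℂ g := by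
    have h1 := (Complex.differentiableOn_dslope (s := Set.univ) (c := (0 : ℂ)) (f := cj a w)
      Filter.univ_mem).2 (cj_diff a w).differentiableOn
    exact differentiableOn_univ.1 h1
  have hg0 : g 0 = w * a - a * w := by
    rw [hg, dslope_same, cj_deriv_zero]
  have hgl : ∀ l : ℂ, l • g l = cj a w l - w := by
    intro l
    have h1 := sub_smul_dslope (cj a w) 0 l
    rw [sub_zero, cj_zero] at h1
    exact h1
  -- the bound on circles
  have hcirc : ∀ (y : C) (s : ℂ) (R : ℝ), 0 < R → ∀ l : ℂ, ‖l‖ = R →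
      ∀ μ ∈ spectrum ℂ (s • y + g l), ‖μ‖ ≤ ‖s‖ * ‖y‖ + (‖w‖ + |K|) / R := by
    intro y s R hR l hl μ hμ
    have hl0 : l ≠ 0 := by
      rintro rfl
      rw [norm_zero] at hl
      exact hR.ne hl
    have h1 : l * μ ∈ spectrum ℂ (l • (s • y + g l)) := by
      have h9 := spectrum.smul_mem_smul_iff (r := Units.mk0 l hl0) (s := μ) (a := s • y + g l)
      exact h9.2 hμ
    let u : Cˣ := ⟨exp (l • a), exp (-(l • a)), exp_mul_neg _, exp_neg_mul _⟩
    have h2 : l • (s • y + g l) =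
        ((u⁻¹ : Cˣ) : C) * ((u : C) * ((l * s) • y - w) * ((u⁻¹ : Cˣ) : C) + w) * (u : C) := by
      have hu : ((u⁻¹ : Cˣ) : C) * (u : C) = 1 := u.inv_mul
      have h3 : cj a w l = ((u⁻¹ : Cˣ) : C) * w * (u : C) := by
        show exp (l • -a) * w * exp (l • a) = exp (-(l • a)) * w * exp (l • a)
        rw [smul_neg]
      have h4 : ((u⁻¹ : Cˣ) : C) * ((u : C) * ((l * s) • y - w) * ((u⁻¹ : Cˣ) : C)) * (u : C)
          = (l * s) • y - w := by
        calc ((u⁻¹ : Cˣ) : C) * ((u : C) * ((l * s) • y - w) * ((u⁻¹ : Cˣ) : C)) * (u : C)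
            = (((u⁻¹ : Cˣ) : C) * (u : C)) * ((l * s) • y - w) *
              (((u⁻¹ : Cˣ) : C) * (u : C)) := by simp only [mul_assoc]
          _ = _ := by rw [hu, one_mul, mul_one]
      rw [mul_add, add_mul, h4, ← h3, smul_add, hgl l, smul_smul]
      abel
    rw [h2, spectrum.units_conjugate'] at h1
    obtain ⟨ν, hν, h5⟩ := h _ _ h1
    rw [spectrum.units_conjugate] at hν
    have h6 : ‖ν‖ ≤ R * (‖s‖ * ‖y‖) + ‖w‖ := by
      refine (spectrum.norm_le_norm_of_mem hν).trans ((norm_sub_le _ _).trans ?_)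
      rw [norm_smul, norm_mul, hl, mul_assoc]
    have h7 : R * ‖μ‖ ≤ R * (‖s‖ * ‖y‖) + (‖w‖ + |K|) := by
      rw [norm_mul, hl] at h5
      linarith [le_abs_self K]
    have h8 : ‖μ‖ ≤ (R * (‖s‖ * ‖y‖) + (‖w‖ + |K|)) / R := by
      rw [le_div_iff₀ hR]
      linarith
    refine h8.trans (le_of_eq ?_)
    field_simp
  -- the bound at the centre
  have hbd : ∀ (y : C) (s : ℂ), ∀ μ ∈ spectrum ℂ (s • y + (w * a - a * w)), ‖μ‖ ≤ ‖s‖ * ‖y‖ := by
    intro y s μ hμ
    refine le_of_forall_pos_le_add fun δ hδ => ?_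
    have hR : 0 < (‖w‖ + |K| + 1) / δ := by positivity
    rw [← hg0] at hμ
    have h1 := max_principle (fun l => s • y + g l) (hgd.const_add _)
      (M := ‖s‖ * ‖y‖ + (‖w‖ + |K|) / ((‖w‖ + |K| + 1) / δ)) (by positivity) hR
      (hcirc y s _ hR) μ hμ
    refine h1.trans ?_
    have h2 : (‖w‖ + |K|) / ((‖w‖ + |K| + 1) / δ) ≤ δ := by
      rw [div_div_eq_mul_div, div_le_iff₀ (by positivity)]
      nlinarith [norm_nonneg w, abs_nonneg K]
    linarith
  apply eq_zero_of_bounded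
  intro b
  refine ⟨‖b‖, fun l μ hμ => ?_⟩
  rcases eq_or_ne l 0 with rfl | hl
  · rw [zero_smul, add_zero] at hμ
    exact spectrum.norm_le_norm_of_mem hμ
  · have h1 : b + l • (w * a - a * w) = l • (l⁻¹ • b + (w * a - a * w)) := by
      rw [smul_add, smul_smul, mul_inv_cancel₀ hl, one_smul]
    rw [h1] at hμ
    have h2 := hbd b l⁻¹ _ (smul_spec hl hμ)
    rw [norm_mul, norm_inv] at h2
    exact le_of_mul_le_mul_left h2 (by positivity)

theorem main : S_CEN.{u} := by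
  intro B _ w K h
  rw [Subalgebra.mem_center_iff]
  intro b
  have h1 := comm_zero w K h b
  exact (sub_eq_zero.1 h1).symm

end Pool.Agent.Y661.GL.Cen
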