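import Pool.Agent.Helper757.GL.Main
import Pool.Agent.Y661.GL.Cen

/-!
# Unital surjective spectral isometries: the parts put together
-/

set_option autoImplicit false

universe u v

open scoped Topology
open Filter

noncomputable section

namespace Pool.Agent.Y661.GL.Asm

open Pool.Agent.Helper757.GL

section one

variable {A : Type u} [CStarAlgebra A]

theorem exists_max [Nontrivial A] (a : A) :
    ∃ ν ∈ spectrum ℂ a, ∀ μ ∈ spectrum ℂ a, ‖μ‖ ≤ ‖ν‖ := by
  obtain ⟨ν, hν, h⟩ := spectrum.exists_nnnorm_eq_spectralRadius a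
  refine ⟨ν, hν, fun μ hμ => ?_⟩
  have h2 : (‖μ‖₊ : ENNReal) ≤ spectralRadius ℂ a := by
    unfold spectralRadius
    exact le_iSup₂_of_le μ hμ le_rfl
  rw [← h, ENNReal.coe_le_coe] at h2
  exact h2

theorem add_bound [Nontrivial A] (a z : A) (hc : Commute a z) {r : ℝ} (hr0 : 0 ≤ r)
    (h : ∀ μ ∈ spectrum ℂ a, ‖μ‖ ≤ r) : ∀ μ ∈ spectrum ℂ (a + z), ‖μ‖ ≤ r + ‖z‖ := by
  intro μ hμ
  by_contra hcon
  push Not at hcon
  obtain ⟨ρ, hρ1, hρ2⟩ : ∃ ρ : ℝ, r < ρ ∧ ρ < ‖μ‖ - ‖z‖ := exists_between (by linarith)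
  have hρ0 : 0 < ρ := hr0.trans_lt hρ1
  obtain ⟨k₀, hk₀⟩ := eventually_pow_lt a hr0 hρ1 h
  obtain ⟨K, hK⟩ : ∃ K : ℝ, ∀ k : ℕ, ‖a ^ k‖ ≤ K * ρ ^ k := by
    refine ⟨1 + ∑ i ∈ Finset.range k₀, ‖a ^ i‖ / ρ ^ i, fun k => ?_⟩
    have hs : 0 ≤ ∑ i ∈ Finset.range k₀, ‖a ^ i‖ / ρ ^ i :=
      Finset.sum_nonneg fun i _ => by positivity
    rcases Nat.lt_or_ge k k₀ with h1 | h1
    · have h2 : ‖a ^ k‖ / ρ ^ k ≤ ∑ i ∈ Finset.range k₀, ‖a ^ i‖ / ρ ^ i :=
        Finset.single_le_sum (f := fun i => ‖a ^ i‖ / ρ ^ i) (fun i _ => by positivity)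
          (Finset.mem_range.2 h1)
      rw [div_le_iff₀ (by positivity)] at h2
      have h3 : 0 < ρ ^ k := by positivity
      nlinarith
    · have h2 := (hk₀ k h1).le
      have h3 : 0 < ρ ^ k := by positivity
      nlinarith
  have hpow : ∀ n : ℕ, ‖(a + z) ^ n‖ ≤ K * (ρ + ‖z‖) ^ n := by
    intro n
    rw [hc.add_pow, add_pow, Finset.mul_sum]
    refine norm_sum_le_of_le _ fun k _ => ?_
    rw [← nsmul_eq_mul']
    refine (norm_nsmul_le ..).trans ?_
    have h1 : ‖a ^ k * z ^ (n - k)‖ ≤ K * ρ ^ k * ‖z‖ ^ (n - k) :=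
      (norm_mul_le _ _).trans (mul_le_mul (hK k) (norm_pow_le _ _) (norm_nonneg _)
        ((norm_nonneg _).trans (hK k)))
    calc ((n.choose k : ℕ) : ℝ) * ‖a ^ k * z ^ (n - k)‖
        ≤ (n.choose k : ℕ) * (K * ρ ^ k * ‖z‖ ^ (n - k)) :=
          mul_le_mul_of_nonneg_left h1 (by positivity)
      _ = _ := by ring
  have h1c : 0 < ρ + ‖z‖ := by positivity
  have h1 : 1 < ‖μ‖ / (ρ + ‖z‖) := by
    rw [one_lt_div h1c]
    linarith
  obtain ⟨n, hn⟩ := pow_unbounded_of_one_lt K h1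
  have h2 : μ ^ n ∈ spectrum ℂ ((a + z) ^ n) := spectrum.pow_mem_pow _ n hμ
  have h3 := spectrum.norm_le_norm_of_mem h2
  rw [norm_pow] at h3
  rw [div_pow, lt_div_iff₀ (by positivity)] at hn
  linarith [h3.trans (hpow n)]

/-- the centre is a commutative Banach algebra -/
@[reducible] def zRing (A : Type u) [CStarAlgebra A] : NormedCommRing (Subalgebra.center ℂ A) :=
  { (inferInstance : NormedRing (Subalgebra.center ℂ A)) with
    mul_comm := fun a b => mul_comm a b }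

theorem center_closed : IsClosed ((Subalgebra.center ℂ A : Subalgebra ℂ A) : Set A) := by
  have h : ((Subalgebra.center ℂ A : Subalgebra ℂ A) : Set A) = ⋂ b : A, {z | b * z = z * b} := by
    ext z
    simp only [SetLike.mem_coe, Subalgebra.mem_center_iff, Set.mem_iInter, Set.mem_setOf_eq]
  rw [h]
  exact isClosed_iInter fun b => isClosed_eq (by fun_prop) (by fun_prop)

theorem exists_scalar (m : Ideal (Subalgebra.center ℂ A)) (hm : m.IsMaximal)
    (w : Subalgebra.center ℂ A) : ∃ c : ℂ, w - algebraMap ℂ _ c ∈ m := by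
  letI := zRing A
  haveI : CompleteSpace (Subalgebra.center ℂ A) :=
    (center_closed (A := A)).completeSpace_coe
  haveI := hm
  refine ⟨m.toCharacterSpace w, ?_⟩
  by_contra hcon
  obtain ⟨y, i, hi, h1⟩ := hm.exists_inv hcon
  have h2 := congrArg (m.toCharacterSpace) h1
  rw [map_add, map_mul, Ideal.toCharacterSpace_apply_eq_zero_of_mem m hi, add_zero, map_one,
    map_sub, AlgHomClass.commutes] at h2
  simp at h2

end one

section two

variable {A : Type u} {B : Type v} [CStarAlgebra A] [CStarAlgebra B]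

/-- A surjective spectral isometry is injective. -/
theorem injective (T : A →ₗ[ℂ] B)
    (hr : ∀ x, spectralRadius ℂ (T x) = spectralRadius ℂ x) : Function.Injective T := by
  rw [← LinearMap.ker_eq_bot, LinearMap.ker_eq_bot']
  intro x hx
  apply eq_zero_of_bounded
  intro b
  refine ⟨‖T b‖ * ‖(1 : B)‖, fun l μ hμ => ?_⟩
  have h1 : (‖μ‖₊ : ENNReal) ≤ spectralRadius ℂ (b + l • x) := by
    unfold spectralRadius
    exact le_iSup₂_of_le μ hμ le_rfl
  rw [← hr, map_add, map_smul, hx, smul_zero, add_zero] at h1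
  have h2 : spectralRadius ℂ (T b) ≤ ENNReal.ofReal (‖T b‖ * ‖(1 : B)‖) := by
    unfold spectralRadius
    exact iSup₂_le fun ν hν => ENNReal.coe_le_coe.2
      (NNReal.le_toNNReal_of_coe_le (spectrum.norm_le_norm_mul_of_mem hν))
  have h3 := h1.trans h2
  have h4 : (‖μ‖₊ : ENNReal) ≤ ((‖T b‖ * ‖(1 : B)‖).toNNReal : ENNReal) := h3
  rw [ENNReal.coe_le_coe, Real.le_toNNReal_iff_coe_le (by positivity)] at h4
  exact h4

theorem symm_radius (T : A ≃ₗ[ℂ] B) (hr : ∀ x, spectralRadius ℂ (T x) = spectralRadius ℂ x)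
    (y : B) : spectralRadius ℂ (T.symm y) = spectralRadius ℂ y := by
  have h := hr (T.symm y)
  rw [T.apply_symm_apply] at h
  exact h.symm

theorem map_center (hCEN : S_CEN.{v}) (T : A ≃ₗ[ℂ] B)
    (hr : ∀ x, spectralRadius ℂ (T x) = spectralRadius ℂ x) {z : A}
    (hz : z ∈ Subalgebra.center ℂ A) : T z ∈ Subalgebra.center ℂ B := by
  apply hCEN B (T z) ‖z‖
  intro b μ hμ
  rcases subsingleton_or_nontrivial B with hB | hB
  · rw [spectrum.of_subsingleton] at hμ
    exact hμ.elim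
  haveI : Nontrivial A := T.toEquiv.nontrivial
  obtain ⟨ν, hν, hmax⟩ := exists_max b
  refine ⟨ν, hν, ?_⟩
  have h1 : ∀ μ ∈ spectrum ℂ (T.symm b), ‖μ‖ ≤ ‖ν‖ :=
    spec_bound (T := T.symm.toLinearMap) (fun y => (symm_radius T hr y).le) (norm_nonneg ν) hmax
  have h2 := add_bound (T.symm b) z (Subalgebra.mem_center_iff.1 hz _) (norm_nonneg ν) h1
  have h3 := spec_bound (T := T.toLinearMap) (fun x => (hr x).le) (by positivity) h2 μ
  apply h3
  show μ ∈ spectrum ℂ (T (T.symm b + z))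
  rw [map_add, T.apply_symm_apply]
  exact hμ

theorem center_iff (hA : S_CEN.{u}) (hB : S_CEN.{v}) (T : A ≃ₗ[ℂ] B)
    (hr : ∀ x, spectralRadius ℂ (T x) = spectralRadius ℂ x) (x : A) :
    x ∈ Subalgebra.center ℂ A ↔ T x ∈ Subalgebra.center ℂ B := by
  refine ⟨map_center hB T hr, fun h => ?_⟩
  have h1 := map_center hA T.symm (symm_radius T hr) h
  rw [T.symm_apply_apply] at h1
  exact h1

/-- the ideal of the centre of `B` that corresponds to an ideal of the centre of `A` -/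
def push (T : A ≃ₗ[ℂ] B)
    (hc : ∀ x, x ∈ Subalgebra.center ℂ A ↔ T x ∈ Subalgebra.center ℂ B)
    (hm : ∀ z ∈ Subalgebra.center ℂ A, ∀ w ∈ Subalgebra.center ℂ A, T (z * w) = T z * T w)
    (m : Ideal (Subalgebra.center ℂ A)) : Ideal (Subalgebra.center ℂ B) where
  carrier := {w | ∃ z ∈ m, T (z : A) = (w : B)}
  zero_mem' := ⟨0, m.zero_mem, by simp⟩
  add_mem' := by
    rintro a b ⟨z, hz, h1⟩ ⟨w, hw, h2⟩
    exact ⟨z + w, m.add_mem hz hw, by
      rw [Subalgebra.coe_add, map_add, h1, h2, Subalgebra.coe_add]⟩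
  smul_mem' := by
    rintro a b ⟨z, hz, h1⟩
    have h2 : T.symm (a : B) ∈ Subalgebra.center ℂ A := by
      rw [hc, T.apply_symm_apply]
      exact a.2
    refine ⟨⟨T.symm (a : B), h2⟩ * z, m.mul_mem_left _ hz, ?_⟩
    rw [Subalgebra.coe_mul, hm _ h2 _ z.2, T.apply_symm_apply, h1]
    rfl

theorem carrier_push (T : A ≃ₗ[ℂ] B)
    (hc : ∀ x, x ∈ Subalgebra.center ℂ A ↔ T x ∈ Subalgebra.center ℂ B)
    (hm : ∀ z ∈ Subalgebra.center ℂ A, ∀ w ∈ Subalgebra.center ℂ A, T (z * w) = T z * T w)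
    (m : Ideal (Subalgebra.center ℂ A)) : carrier (push T hc hm m) = T '' carrier m := by
  ext y
  constructor
  · rintro ⟨w, ⟨z, hz, h1⟩, rfl⟩
    exact ⟨z, ⟨z, hz, rfl⟩, h1⟩
  · rintro ⟨_, ⟨z, hz, rfl⟩, rfl⟩
    exact ⟨⟨T z, (hc _).1 z.2⟩, ⟨z, hz, rfl⟩, rfl⟩

theorem main_image (T : A ≃ₗ[ℂ] B) (h1 : T 1 = 1)
    (hr : ∀ x, spectralRadius ℂ (T x) = spectralRadius ℂ x)
    (hc : ∀ x, x ∈ Subalgebra.center ℂ A ↔ T x ∈ Subalgebra.center ℂ B)
    (hm : ∀ z ∈ Subalgebra.center ℂ A, ∀ w ∈ Subalgebra.center ℂ A, T (z * w) = T z * T w)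
    (m : Ideal (Subalgebra.center ℂ A)) (x : A) :
    x ∈ closedIdeal (carrier m) ↔ T x ∈ closedIdeal (T '' carrier m) := by
  constructor
  · exact fun hx => Pool.Agent.Helper757.GL.main T.toLinearMap h1 T.surjective
      (fun x => (hr x).le) m hx
  · intro hx
    rw [← carrier_push T hc hm] at hx
    have h2 := Pool.Agent.Helper757.GL.main T.symm.toLinearMap
      (by
        show T.symm 1 = 1
        rw [← h1, T.symm_apply_apply]) T.symm.surjective
      (fun x => (symm_radius T hr x).le) (push T hc hm m) hx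
    rw [carrier_push] at h2
    have h3 : (T.symm.toLinearMap : B → A) '' (T '' carrier m) = carrier m := by
      rw [Set.image_image]
      have : ∀ a, T.symm.toLinearMap (T a) = a := fun a => T.symm_apply_apply a
      simp only [this, Set.image_id']
    rw [h3] at h2
    have h4 : T.symm.toLinearMap (T x) = x := T.symm_apply_apply x
    rw [h4] at h2
    exact h2

theorem closedIdeal_mono {S S' : Set A} (h : S ⊆ S') : closedIdeal S ⊆ closedIdeal S' :=
  fun _ hx I h1 h2 => hx I h1 (h.trans h2)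

theorem mul_mem_closedIdeal {S : Set A} {s : A} (hs : s ∈ S) (x : A) : s * x ∈ closedIdeal S :=
  fun I _ h2 => I.mul_mem_right _ _ (h2 hs)

/-- A unital spectral isometry is a module map over the centre. -/
theorem module_map (hINT : S_INT.{v}) (T : A ≃ₗ[ℂ] B) (h1 : T 1 = 1)
    (hr : ∀ x, spectralRadius ℂ (T x) = spectralRadius ℂ x)
    (hc : ∀ x, x ∈ Subalgebra.center ℂ A ↔ T x ∈ Subalgebra.center ℂ B)
    (hm : ∀ z ∈ Subalgebra.center ℂ A, ∀ w ∈ Subalgebra.center ℂ A, T (z * w) = T z * T w)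
    (z : A) (hz : z ∈ Subalgebra.center ℂ A) (x : A) : T (z * x) = T z * T x := by
  rw [← sub_eq_zero]
  apply hINT B
  intro n hn
  obtain ⟨c, hcn⟩ := exists_scalar n hn ⟨T z, (hc z).1 hz⟩
  -- the corresponding ideal of the centre of `A`
  have hc' : ∀ y, y ∈ Subalgebra.center ℂ B ↔ T.symm y ∈ Subalgebra.center ℂ A := fun y => by
    rw [hc, T.apply_symm_apply]
  have hm' : ∀ z ∈ Subalgebra.center ℂ B, ∀ w ∈ Subalgebra.center ℂ B,
      T.symm (z * w) = T.symm z * T.symm w := by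
    intro z hz w hw
    apply T.injective
    rw [T.apply_symm_apply, hm _ ((hc' z).1 hz) _ ((hc' w).1 hw), T.apply_symm_apply,
      T.apply_symm_apply]
  set m : Ideal (Subalgebra.center ℂ A) := push T.symm hc' hm' n with hmdef
  have hTm : T '' carrier m = carrier n := by
    rw [hmdef, carrier_push, Set.image_image]
    have : ∀ a, T (T.symm a) = a := fun a => T.apply_symm_apply a
    simp only [this, Set.image_id']
  have h2 : z - c • (1 : A) ∈ carrier m := by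
    rw [hmdef, carrier_push]
    refine ⟨T z - c • (1 : B), ⟨_, hcn, ?_⟩, ?_⟩
    · show (T z - ((algebraMap ℂ (Subalgebra.center ℂ B) c : Subalgebra.center ℂ B) : B)) = _
      rw [Subalgebra.coe_algebraMap, Algebra.algebraMap_eq_smul_one]
    · rw [map_sub, map_smul, T.symm_apply_apply, ← h1, T.symm_apply_apply]
  have h3 : T ((z - c • (1 : A)) * x) ∈ closedIdeal (carrier n) := by
    rw [← hTm]
    exact (main_image T h1 hr hc hm m _).1 (mul_mem_closedIdeal h2 x)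
  have h4 : (T z - c • (1 : B)) * T x ∈ closedIdeal (carrier n) := by
    apply mul_mem_closedIdeal
    refine ⟨_, hcn, ?_⟩
    show (T z - ((algebraMap ℂ (Subalgebra.center ℂ B) c : Subalgebra.center ℂ B) : B)) = _
    rw [Subalgebra.coe_algebraMap, Algebra.algebraMap_eq_smul_one]
  have h5 : T (z * x) - T z * T x =
      T ((z - c • (1 : A)) * x) - (T z - c • (1 : B)) * T x := by
    rw [sub_mul, sub_mul, smul_mul_assoc, smul_mul_assoc, one_mul, one_mul, map_sub, map_smul]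
    abel
  rw [h5]
  exact (closedSub (carrier n)).sub_mem h3 h4

end two

section three

variable {A : Type u} {B : Type v} [CStarAlgebra A] [CStarAlgebra B]

theorem cutoff (m : Ideal (Subalgebra.center ℂ A)) (x : A) {r R : ℝ} (hr0 : 0 ≤ r) (hrR : r < R)
    (h : ∀ μ ∈ spectrum ℂ (mkHom (closedSub_CI (carrier m)) x), ‖μ‖ ≤ r) :
    ∃ v : Subalgebra.center ℂ A, v - 1 ∈ m ∧ ∀ μ ∈ spectrum ℂ ((v : A) * x), ‖μ‖ ≤ R := by
  have hR : 0 < R := hr0.trans_lt hrR
  set H := closedSub_CI (A := A) (carrier m) with hH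
  obtain ⟨n, hn1, hn⟩ : ∃ n : ℕ, 1 ≤ n ∧ ‖mkHom H (x ^ n)‖ < R ^ n := by
    rcases subsingleton_or_nontrivial (Q H) with hC | hC
    · refine ⟨1, le_rfl, ?_⟩
      rw [Subsingleton.elim (mkHom H (x ^ 1)) 0, norm_zero]
      positivity
    · obtain ⟨k, hk⟩ := eventually_pow_lt (mkHom H x) hr0 hrR h
      refine ⟨max k 1, le_max_right _ _, ?_⟩
      rw [map_pow]
      exact hk _ (le_max_left _ _)
  obtain ⟨y, hy1, hy2⟩ := exists_rep H (mkHom H (x ^ n)) (sub_pos.2 hn)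
  have hy3 : ‖y‖ < R ^ n := by linarith
  have hmem : x ^ n - y ∈ closedIdeal (carrier m) := (mk_eq H (x ^ n) y).1 hy1.symm
  obtain ⟨v, hv1, hv2, hv3⟩ := small_of_mem_closedIdeal m hmem (R ^ n - ‖y‖) (sub_pos.2 hy3)
  refine ⟨v, hv1, fun μ hμ => ?_⟩
  have h1 : ‖(v : A) * x ^ n‖ ≤ R ^ n := by
    have e : (v : A) * x ^ n = v * y + v * (x ^ n - y) := by rw [mul_sub, add_sub_cancel]
    rw [e]
    have h2 : ‖(v : A) * y‖ ≤ ‖y‖ := (norm_mul_le _ _).trans (by
      nlinarith [norm_nonneg y])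
    have h3 := norm_add_le ((v : A) * y) (v * (x ^ n - y))
    linarith
  have h2 : ((v : A) * x) ^ n = (v : A) ^ (n - 1) * (v * x ^ n) := by
    have hc : Commute (v : A) x := center_comm v x
    rw [hc.mul_pow, ← mul_assoc, ← pow_succ, Nat.sub_add_cancel hn1]
  have h3 : ‖((v : A) * x) ^ n‖ ≤ R ^ n := by
    rw [h2]
    rcases Nat.eq_zero_or_pos (n - 1) with h0 | h0
    · rw [h0, pow_zero, one_mul]
      exact h1
    · refine (norm_mul_le _ _).trans ?_
      have h4 : ‖(v : A) ^ (n - 1)‖ ≤ 1 :=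
        (norm_pow_le' _ h0).trans (pow_le_one₀ (norm_nonneg _) hv2)
      calc _ ≤ 1 * R ^ n := mul_le_mul h4 h1 (norm_nonneg _) zero_le_one
        _ = R ^ n := one_mul _
  have h4 : μ ^ n ∈ spectrum ℂ (((v : A) * x) ^ n) := spectrum.pow_mem_pow _ n hμ
  have h5 := spectrum.norm_le_norm_mul_of_mem h4
  rw [norm_pow] at h5
  have h6 : ‖μ‖ ^ n ≤ R ^ n := by
    refine h5.trans ((mul_le_mul h3 norm_one_le' (norm_nonneg _) (by positivity)).trans ?_)
    rw [mul_one]
  exact le_of_pow_le_pow_left₀ (by omega) hR.le h6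

theorem isUnit_iff {C : Type*} [Ring C] [Algebra ℂ C] (π : A →ₐ[ℂ] C)
    (hπ : Function.Surjective π) {I : Set A} (hI : ∀ a, π a = 0 ↔ a ∈ I) (a : A) :
    IsUnit (π a) ↔ ∃ y, a * y - 1 ∈ I ∧ y * a - 1 ∈ I := by
  constructor
  · rintro ⟨w, hw⟩
    obtain ⟨y, hy⟩ := hπ ((w⁻¹ : Cˣ) : C)
    refine ⟨y, ?_, ?_⟩
    · rw [← hI, map_sub, map_mul, hy, ← hw, Units.mul_inv, map_one, sub_self]
    · rw [← hI, map_sub, map_mul, hy, ← hw, Units.inv_mul, map_one, sub_self]
  · rintro ⟨y, h1, h2⟩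
    rw [← hI, map_sub, map_mul, map_one, sub_eq_zero] at h1 h2
    exact ⟨⟨π a, π y, h1, h2⟩, rfl⟩

theorem spectrum_eq {C D : Type*} [Ring C] [Algebra ℂ C] [Ring D] [Algebra ℂ D] (π : A →ₐ[ℂ] C)
    (π' : A →ₐ[ℂ] D) (hπ : Function.Surjective π) (hπ' : Function.Surjective π') {I : Set A}
    (hI : ∀ a, π a = 0 ↔ a ∈ I) (hI' : ∀ a, π' a = 0 ↔ a ∈ I) (a : A) :
    spectrum ℂ (π a) = spectrum ℂ (π' a) := by
  ext μ
  rw [spectrum.mem_iff, spectrum.mem_iff, ← AlgHomClass.commutes π μ, ← AlgHomClass.commutes π' μ,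
    ← map_sub, ← map_sub, isUnit_iff π hπ hI, isUnit_iff π' hπ' hI']

theorem quot_le {C D : Type*} [Ring C] [Algebra ℂ C] [Ring D] [Algebra ℂ D] (T : A →ₗ[ℂ] B)
    (h1 : T 1 = 1) (hs : Function.Surjective T)
    (hr : ∀ x, spectralRadius ℂ (T x) ≤ spectralRadius ℂ x)
    (m : Ideal (Subalgebra.center ℂ A)) (π : A →ₐ[ℂ] C) (ρ : B →ₐ[ℂ] D)
    (hπ : Function.Surjective π) (hI : ∀ a, π a = 0 ↔ a ∈ closedIdeal (carrier m))
    (hJ : ∀ b, ρ b = 0 ↔ b ∈ closedIdeal (T '' carrier m)) (x : A) :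
    spectralRadius ℂ (ρ (T x)) ≤ spectralRadius ℂ (π x) := by
  refine le_of_forall_gt_imp_ge_of_dense fun c hc => ?_
  rcases eq_or_ne c ⊤ with rfl | hc'
  · exact le_top
  set H := closedSub_CI (A := A) (carrier m) with hH
  have hsp : spectrum ℂ (π x) = spectrum ℂ (mkHom H x) :=
    spectrum_eq π (mkHom H) hπ (mkHom_surj H) hI (fun a => mkHom_eq_zero H a) x
  have hne : spectralRadius ℂ (π x) ≠ ⊤ := (hc.trans_le le_top).ne
  have hb : ∀ μ ∈ spectrum ℂ (mkHom H x), ‖μ‖ ≤ (spectralRadius ℂ (π x)).toReal := by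
    intro μ hμ
    rw [← hsp] at hμ
    have h2 : (‖μ‖₊ : ENNReal) ≤ spectralRadius ℂ (π x) := by
      unfold spectralRadius
      exact le_iSup₂_of_le μ hμ le_rfl
    have h3 := ENNReal.toReal_mono hne h2
    simpa using h3
  have hlt : (spectralRadius ℂ (π x)).toReal < c.toReal := ENNReal.toReal_strict_mono hc' hc
  obtain ⟨v, hv1, hv2⟩ := cutoff m x ENNReal.toReal_nonneg hlt hb
  have h4 := spec_bound (T := T) hr ENNReal.toReal_nonneg hv2
  have h5 : ρ (T x) = ρ (T ((v : A) * x)) := by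
    rw [← sub_eq_zero, ← map_sub, hJ, ← map_sub]
    have e : x - (v : A) * x = -(((v - 1 : Subalgebra.center ℂ A) : A) * x) := by
      rw [Subalgebra.coe_sub, Subalgebra.coe_one, sub_mul, one_mul, neg_sub]
    rw [e, map_neg]
    refine (closedSub (T '' carrier m)).neg_mem ?_
    exact Pool.Agent.Helper757.GL.main T h1 hs hr m (mul_mem_closedIdeal (S := carrier m)
      (s := ((v - 1 : Subalgebra.center ℂ A) : A)) ⟨_, hv1, rfl⟩ x)
  rw [h5]
  unfold spectralRadius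
  refine iSup₂_le fun μ hμ => ?_
  have h6 := h4 μ (AlgHom.spectrum_apply_subset ρ _ hμ)
  rw [← ENNReal.ofReal_toReal hc']
  exact ENNReal.coe_le_coe.2 (NNReal.le_toNNReal_of_coe_le h6)

theorem quot_eq {C D : Type*} [Ring C] [Algebra ℂ C] [Ring D] [Algebra ℂ D] (T : A ≃ₗ[ℂ] B)
    (h1 : T 1 = 1) (hr : ∀ x, spectralRadius ℂ (T x) = spectralRadius ℂ x)
    (hc : ∀ x, x ∈ Subalgebra.center ℂ A ↔ T x ∈ Subalgebra.center ℂ B)
    (hm : ∀ z ∈ Subalgebra.center ℂ A, ∀ w ∈ Subalgebra.center ℂ A, T (z * w) = T z * T w)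
    (m : Ideal (Subalgebra.center ℂ A)) (π : A →ₐ[ℂ] C) (ρ : B →ₐ[ℂ] D)
    (hπ : Function.Surjective π) (hρ : Function.Surjective ρ)
    (hI : ∀ a, π a = 0 ↔ a ∈ closedIdeal (carrier m))
    (hJ : ∀ b, ρ b = 0 ↔ b ∈ closedIdeal (T '' carrier m)) (x : A) :
    spectralRadius ℂ (ρ (T x)) = spectralRadius ℂ (π x) := by
  refine le_antisymm (quot_le T.toLinearMap h1 T.surjective (fun x => (hr x).le) m π ρ hπ hI hJ x)
    ?_
  have h2 := quot_le T.symm.toLinearMap
    (by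
      show T.symm 1 = 1
      rw [← h1, T.symm_apply_apply]) T.symm.surjective
    (fun x => (symm_radius T hr x).le) (push T hc hm m) ρ π hρ
    (fun b => by rw [hJ, carrier_push])
    (fun a => by
      rw [hI, carrier_push]
      have h3 : (T.symm.toLinearMap : B → A) '' (T '' carrier m) = carrier m := by
        rw [Set.image_image]
        have : ∀ a, T.symm.toLinearMap (T a) = a := fun a => T.symm_apply_apply a
        simp only [this, Set.image_id']
      rw [h3]) (T x)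
  have h4 : T.symm.toLinearMap (T x) = x := T.symm_apply_apply x
  rw [h4] at h2
  exact h2

end three

end Pool.Agent.Y661.GL.Asm
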