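import Pool.Agent.Y661.GL.Asm
import Pool.Agent.Y182.GL.MUL
import Pool.Agent.Y297.GL.INT
import Pool.Agent.Y564.GL.EX

/-!
# Unital surjective spectral isometries: everything without hypotheses
-/

set_option autoImplicit false

universe u v w₁ w₂

noncomputable section

namespace Pool.Agent.Y661.GL.Fin

open Pool.Agent.Helper757.GL Pool.Agent.Y661.GL.Asm

variable {A : Type u} {B : Type v} [CStarAlgebra A] [CStarAlgebra B]

/-- the bijection defined by a surjective spectral isometry -/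
def equiv (T : A →ₗ[ℂ] B) (hs : Function.Surjective T)
    (hr : ∀ x, spectralRadius ℂ (T x) = spectralRadius ℂ x) : A ≃ₗ[ℂ] B :=
  LinearEquiv.ofBijective T ⟨injective T hr, hs⟩

theorem push_max (T : A ≃ₗ[ℂ] B) (h1 : T 1 = 1)
    (hc : ∀ x, x ∈ Subalgebra.center ℂ A ↔ T x ∈ Subalgebra.center ℂ B)
    (hm : ∀ z ∈ Subalgebra.center ℂ A, ∀ w ∈ Subalgebra.center ℂ A, T (z * w) = T z * T w)
    (m : Ideal (Subalgebra.center ℂ A)) (hmm : m.IsMaximal) : (push T hc hm m).IsMaximal := by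
  rw [Ideal.isMaximal_iff]
  constructor
  · rintro ⟨z, hz, h2⟩
    apply hmm.ne_top
    rw [Ideal.eq_top_iff_one]
    have h3 : (z : A) = 1 := by
      apply T.injective
      rw [h2, h1]
      rfl
    have h4 : z = 1 := Subtype.ext h3
    rwa [h4] at hz
  · intro J x hJ hx hxJ
    have hz : T.symm (x : B) ∈ Subalgebra.center ℂ A := by
      rw [hc, T.apply_symm_apply]
      exact x.2
    have hzm : (⟨T.symm (x : B), hz⟩ : Subalgebra.center ℂ A) ∉ m := by
      intro h
      exact hx ⟨_, h, T.apply_symm_apply _⟩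
    obtain ⟨y, i, hi, h2⟩ := hmm.exists_inv hzm
    have h3 : (⟨T (y : A), (hc _).1 y.2⟩ : Subalgebra.center ℂ B) * x +
        ⟨T (i : A), (hc _).1 i.2⟩ = 1 := by
      apply Subtype.ext
      show T (y : A) * (x : B) + T (i : A) = 1
      have h4 := congrArg (fun a : Subalgebra.center ℂ A => T (a : A)) h2
      simp only [Subalgebra.coe_add, Subalgebra.coe_mul, map_add, Subalgebra.coe_one, h1] at h4
      rw [hm _ y.2 _ hz, T.apply_symm_apply] at h4
      exact h4
    rw [← h3]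
    exact J.add_mem (J.mul_mem_left _ hxJ) (hJ ⟨i, hi, rfl⟩)

theorem spec_sub (T : A ≃ₗ[ℂ] B) (h1 : T 1 = 1)
    (hc : ∀ x, x ∈ Subalgebra.center ℂ A ↔ T x ∈ Subalgebra.center ℂ B)
    (hmod : ∀ z ∈ Subalgebra.center ℂ A, ∀ x, T (z * x) = T z * T x) {z : A}
    (hz : z ∈ Subalgebra.center ℂ A) {μ : ℂ} (hμ : μ ∈ spectrum ℂ (T z)) : μ ∈ spectrum ℂ z := by
  by_contra hcon
  rw [spectrum.notMem_iff] at hcon
  rw [spectrum.mem_iff] at hμ
  apply hμ
  obtain ⟨w, hw⟩ := hcon
  have hzc : algebraMap ℂ A μ - z ∈ Subalgebra.center ℂ A :=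
    Subalgebra.sub_mem _ (Subalgebra.algebraMap_mem _ μ) hz
  have hT : T (algebraMap ℂ A μ - z) = algebraMap ℂ B μ - T z := by
    rw [map_sub, Algebra.algebraMap_eq_smul_one, Algebra.algebraMap_eq_smul_one, map_smul, h1]
  have h2 : (algebraMap ℂ B μ - T z) * T ((w⁻¹ : Aˣ) : A) = 1 := by
    rw [← hT, ← hmod _ hzc, ← hw, Units.mul_inv, h1]
  have h3 : T ((w⁻¹ : Aˣ) : A) * (algebraMap ℂ B μ - T z) = 1 := by
    rw [← h2, ← hT]
    exact Subalgebra.mem_center_iff.1 ((hc _).1 hzc) _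
  exact ⟨⟨_, _, h2, h3⟩, rfl⟩

theorem sa_map (T : A ≃ₗ[ℂ] B) (h1 : T 1 = 1)
    (hc : ∀ x, x ∈ Subalgebra.center ℂ A ↔ T x ∈ Subalgebra.center ℂ B)
    (hmod : ∀ z ∈ Subalgebra.center ℂ A, ∀ x, T (z * x) = T z * T x) {z : A}
    (hz : z ∈ Subalgebra.center ℂ A) (hsa : IsSelfAdjoint z) : star (T z) = T z := by
  have hn : IsStarNormal (T z) := ⟨Subalgebra.mem_center_iff.1 ((hc z).1 hz) (star (T z))⟩
  have h2 : SpectrumRestricts (T z) Complex.reCLM := by
    rw [SpectrumRestricts.real_iff]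
    intro μ hμ
    exact hsa.mem_spectrum_eq_re (spec_sub T h1 hc hmod hz hμ)
  exact h2.isSelfAdjoint

theorem star_map (T : A ≃ₗ[ℂ] B) (h1 : T 1 = 1)
    (hc : ∀ x, x ∈ Subalgebra.center ℂ A ↔ T x ∈ Subalgebra.center ℂ B)
    (hmod : ∀ z ∈ Subalgebra.center ℂ A, ∀ x, T (z * x) = T z * T x) {z : A}
    (hz : z ∈ Subalgebra.center ℂ A) : T (star z) = star (T z) := by
  have hz' := star_center hz
  have ha : IsSelfAdjoint (z + star z) := IsSelfAdjoint.add_star_self z
  have hb : IsSelfAdjoint (Complex.I • (star z - z)) := by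
    show star (Complex.I • (star z - z)) = _
    rw [star_smul, star_sub, star_star, Complex.star_def, Complex.conj_I, neg_smul, ← smul_neg,
      neg_sub]
  have e1 := sa_map T h1 hc hmod (Subalgebra.add_mem _ hz hz') ha
  have e2 := sa_map T h1 hc hmod (Subalgebra.smul_mem _ (Subalgebra.sub_mem _ hz' hz) Complex.I) hb
  rw [map_add, star_add] at e1
  rw [map_smul, star_smul, map_sub, star_sub, Complex.star_def, Complex.conj_I, neg_smul,
    ← smul_neg, neg_sub] at e2
  have e3 : star (T z) - star (T (star z)) = T (star z) - T z :=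
    smul_right_injective B Complex.I_ne_zero e2
  have e4 : (2 : ℂ) • T (star z) = (2 : ℂ) • star (T z) := by
    rw [two_smul, two_smul]
    calc T (star z) + T (star z) = (T z + T (star z)) + (T (star z) - T z) := by abel
      _ = (star (T z) + star (T (star z))) + (star (T z) - star (T (star z))) := by rw [e1, e3]
      _ = star (T z) + star (T z) := by abel
  exact smul_right_injective B (two_ne_zero (α := ℂ)) e4

theorem inter_zero (T : A ≃ₗ[ℂ] B) (h1 : T 1 = 1)
    (hc : ∀ x, x ∈ Subalgebra.center ℂ A ↔ T x ∈ Subalgebra.center ℂ B)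
    (hm : ∀ z ∈ Subalgebra.center ℂ A, ∀ w ∈ Subalgebra.center ℂ A, T (z * w) = T z * T w)
    (b : B) (hb : ∀ m : Ideal (Subalgebra.center ℂ A), m.IsMaximal →
      b ∈ closedIdeal (T '' carrier m)) : b = 0 := by
  apply Pool.Agent.Y297.GL.main B
  intro n hn
  have hc' : ∀ y, y ∈ Subalgebra.center ℂ B ↔ T.symm y ∈ Subalgebra.center ℂ A := fun y => by
    rw [hc, T.apply_symm_apply]
  have hm' : ∀ z ∈ Subalgebra.center ℂ B, ∀ w ∈ Subalgebra.center ℂ B,
      T.symm (z * w) = T.symm z * T.symm w := by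
    intro z hz w hw
    apply T.injective
    rw [T.apply_symm_apply, hm _ ((hc' z).1 hz) _ ((hc' w).1 hw), T.apply_symm_apply,
      T.apply_symm_apply]
  have h1' : T.symm 1 = 1 := by rw [← h1, T.symm_apply_apply]
  have h2 := hb (push T.symm hc' hm' n) (push_max T.symm h1' hc' hm' n hn)
  have hTm : T '' carrier (push T.symm hc' hm' n) = carrier n := by
    rw [carrier_push, Set.image_image]
    have : ∀ a, T (T.symm a) = a := fun a => T.apply_symm_apply a
    simp only [this, Set.image_id']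
  rwa [hTm] at h2

/-- Everything about isometries. -/
theorem isometry_all (T : A →ₗ[ℂ] B) (h1 : T 1 = 1) (hs : Function.Surjective T)
    (hr : ∀ x, spectralRadius ℂ (T x) = spectralRadius ℂ x) :
    Function.Injective T ∧
    (∀ x, x ∈ Subalgebra.center ℂ A ↔ T x ∈ Subalgebra.center ℂ B) ∧
    (∀ z ∈ Subalgebra.center ℂ A, T (star z) = star (T z) ∧ ∀ x, T (z * x) = T z * T x) ∧
    ((∀ m : Ideal (Subalgebra.center ℂ A), m.IsMaximal → ∀ x,
      T (x * x) - T x * T x ∈ closedIdeal (T '' carrier m)) → ∀ x, T (x * x) = T x * T x) ∧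
    ∀ m : Ideal (Subalgebra.center ℂ A),
      (∃ n : Ideal (Subalgebra.center ℂ B), carrier n = T '' carrier m ∧
        (m.IsMaximal → n.IsMaximal)) ∧
      T '' closedIdeal (carrier m) = closedIdeal (T '' carrier m) ∧
      ∀ (C : Type w₁) (D : Type w₂) [Ring C] [Algebra ℂ C] [Ring D] [Algebra ℂ D]
        (π : A →ₐ[ℂ] C) (ρ : B →ₐ[ℂ] D), Function.Surjective π → Function.Surjective ρ →
        (∀ a, π a = 0 ↔ a ∈ closedIdeal (carrier m)) →
        (∀ b, ρ b = 0 ↔ b ∈ closedIdeal (T '' carrier m)) →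
        ∀ x, spectralRadius ℂ (ρ (T x)) = spectralRadius ℂ (π x) := by
  let T' := equiv T hs hr
  have hT : ∀ x, T' x = T x := fun _ => rfl
  have h1' : T' 1 = 1 := h1
  have hr' : ∀ x, spectralRadius ℂ (T' x) = spectralRadius ℂ x := hr
  have hc := center_iff Pool.Agent.Y661.GL.Cen.main Pool.Agent.Y661.GL.Cen.main T' hr'
  have hm := Pool.Agent.Y182.GL.main A B T' h1' hr' hc
  have hmod := module_map Pool.Agent.Y297.GL.main T' h1' hr' hc hm
  refine ⟨injective T hr, hc, fun z hz => ⟨star_map T' h1' hc hmod hz, hmod z hz⟩, ?_, fun m =>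
    ⟨⟨push T' hc hm m, carrier_push T' hc hm m, push_max T' h1' hc hm m⟩, ?_, ?_⟩⟩
  · intro h x
    rw [← sub_eq_zero]
    exact inter_zero T' h1' hc hm _ fun m hmm => h m hmm x
  · ext y
    constructor
    · rintro ⟨x, hx, rfl⟩
      exact (main_image T' h1' hr' hc hm m x).1 hx
    · intro hy
      obtain ⟨x, rfl⟩ := hs y
      exact ⟨x, (main_image T' h1' hr' hc hm m x).2 hy, rfl⟩
  · intro C D _ _ _ _ π ρ hπ hρ hI hJ x
    exact quot_eq T' h1' hr' hc hm m π ρ hπ hρ hI hJ x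

end Pool.Agent.Y661.GL.Fin
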